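import Mathlib

/-!
# Coefficients of representations of discrete groups: the definitions used in the statement
-/

set_option autoImplicit false

noncomputable section

namespace Pool.Agent.H231R3.UB2

open scoped InnerProductSpace

/-- The representations of `G` on `H`: homomorphisms of `G` into the algebra `B(H)`
(automatically into its invertible elements). -/
abbrev Rep (G H : Type) [Group G] [NormedAddCommGroup H] [InnerProductSpace ℂ H] : Type :=
  G →* (H →L[ℂ] H)

/-- `π(g)` is a unitary operator for all `g`. -/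
def IsUnitary {G H : Type} [Group G] [NormedAddCommGroup H] [InnerProductSpace ℂ H]
    [CompleteSpace H] (π : Rep G H) : Prop :=
  ∀ g : G, π g ∈ unitary (H →L[ℂ] H)

/-- `π` is uniformly bounded. -/
def IsUB {G H : Type} [Group G] [NormedAddCommGroup H] [InnerProductSpace ℂ H]
    (π : Rep G H) : Prop :=
  ∃ C : ℝ, ∀ g : G, ‖π g‖ ≤ C

/-- `S π(g) T` is unitary for all `g`, for some `S, T ∈ B(H)` inverse to each other with
`‖S‖² ≤ b` and `‖T‖² ≤ b`. -/
def UnitarizableWith {G H : Type} [Group G] [NormedAddCommGroup H] [InnerProductSpace ℂ H]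
    [CompleteSpace H] (π : Rep G H) (b : ℝ) : Prop :=
  ∃ S T : H →L[ℂ] H, S * T = 1 ∧ T * S = 1 ∧ ‖S‖ ^ 2 ≤ b ∧ ‖T‖ ^ 2 ≤ b ∧
    ∀ g : G, S * π g * T ∈ unitary (H →L[ℂ] H)

/-- `π` is unitarizable: `S π(g) S⁻¹` is unitary for all `g`, for one invertible `S ∈ B(H)`. -/
def Unitarizable {G H : Type} [Group G] [NormedAddCommGroup H] [InnerProductSpace ℂ H]
    [CompleteSpace H] (π : Rep G H) : Prop :=
  ∃ b : ℝ, UnitarizableWith π b

/-- `G` is unitarizable: every uniformly bounded representation of `G` on a Hilbert space is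
unitarizable. -/
def UnitarizableGroup (G : Type) [Group G] : Prop :=
  ∀ (H : Type) [NormedAddCommGroup H] [InnerProductSpace ℂ H] [CompleteSpace H]
    (π : Rep G H), IsUB π → Unitarizable π

/-- The coefficient `g ↦ ⟪a, π(g) b⟫`. -/
def coef {G H : Type} [Group G] [NormedAddCommGroup H] [InnerProductSpace ℂ H]
    (π : Rep G H) (a b : H) : G → ℂ :=
  fun g => ⟪a, π g b⟫_ℂ

/-- `B(G)`, the Fourier–Stieltjes algebra: the coefficients of the unitary representations. -/
def BG (G : Type) [Group G] : Set (G → ℂ) :=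
  {φ | ∃ (K : Type) (_ : NormedAddCommGroup K) (_ : InnerProductSpace ℂ K) (_ : CompleteSpace K)
    (σ : Rep G K) (a b : K), IsUnitary σ ∧ φ = coef σ a b}

/-- `UB(G)`: the coefficients of the uniformly bounded representations. -/
def UBG (G : Type) [Group G] : Set (G → ℂ) :=
  {φ | ∃ (K : Type) (_ : NormedAddCommGroup K) (_ : InnerProductSpace ℂ K) (_ : CompleteSpace K)
    (π : Rep G K) (a b : K), IsUB π ∧ φ = coef π a b}

/-- The space `M_d(G)`: the functions `φ` with
`φ(t_1 t_2 ⋯ t_d) = ⟪a, ξ_1(t_1) ξ_2(t_2) ⋯ ξ_d(t_d) b⟫` for all `t_1, …, t_d ∈ G`, for bounded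
maps `ξ_1, …, ξ_d : G → B(K)` and vectors `a, b` of a Hilbert space `K`. -/
def MdG (G : Type) [Group G] (d : ℕ) : Set (G → ℂ) :=
  {φ | ∃ (K : Type) (_ : NormedAddCommGroup K) (_ : InnerProductSpace ℂ K) (_ : CompleteSpace K)
    (ξ : Fin d → G → (K →L[ℂ] K)) (a b : K), (∃ C : ℝ, ∀ i g, ‖ξ i g‖ ≤ C) ∧
      ∀ t : Fin d → G, φ (List.ofFn t).prod =
        ⟪a, (List.ofFn fun i => ξ i (t i)).prod b⟫_ℂ}

/-- The operator `∑ f(g) π(g)`, for `f` in the complex group algebra. -/
def opOf {G H : Type} [Group G] [NormedAddCommGroup H] [InnerProductSpace ℂ H]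
    (π : Rep G H) (f : MonoidAlgebra ℂ G) : H →L[ℂ] H :=
  f.coeff.sum fun g c => c • π g

/-- The norm of `f` in the full group C*-algebra `C*(G)`: the supremum of `‖∑ f(g) σ(g)‖` over all
unitary representations `σ`. -/
def fullNorm {G : Type} [Group G] (f : MonoidAlgebra ℂ G) : ℝ :=
  sSup {r | ∃ (K : Type) (_ : NormedAddCommGroup K) (_ : InnerProductSpace ℂ K)
    (_ : CompleteSpace K) (σ : Rep G K), IsUnitary σ ∧ r = ‖opOf σ f‖}

/-- All coefficients of `π` lie in `B(G)`. -/
def AllCoefInB {G H : Type} [Group G] [NormedAddCommGroup H] [InnerProductSpace ℂ H]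
    (π : Rep G H) : Prop :=
  ∀ x y : H, coef π x y ∈ BG G

/-- For a non-meagre set of vectors `x`, the coefficient `g ↦ ⟪x, π(g) x⟫` lies in `B(G)`. -/
def NonmeagreDiagInB {G H : Type} [Group G] [NormedAddCommGroup H] [InnerProductSpace ℂ H]
    (π : Rep G H) : Prop :=
  ¬ IsMeagre {x : H | coef π x x ∈ BG G}

/-- `‖π(f)‖ ≤ c ‖f‖` for all `f` in the group algebra, with the norm of `C*(G)`. -/
def CStarBdd {G H : Type} [Group G] [NormedAddCommGroup H] [InnerProductSpace ℂ H]
    (π : Rep G H) (c : ℝ) : Prop :=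
  ∀ f : MonoidAlgebra ℂ G, ‖opOf π f‖ ≤ c * fullNorm f

end Pool.Agent.H231R3.UB2
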