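import Mathlib

/-!
# Coefficients of representations of discrete groups: definitions
-/

set_option autoImplicit false

noncomputable section

namespace Pool.Agent.H231R3.UB

open scoped InnerProductSpace

/-- A homomorphism `π : G → GL(H)` is unitarizable: `S π(g) S⁻¹` is unitary for all `g`, for one
invertible `S ∈ B(H)`. -/
def Unitarizable {G H : Type} [Group G] [NormedAddCommGroup H] [InnerProductSpace ℂ H]
    [CompleteSpace H] (π : G →* (H →L[ℂ] H)ˣ) : Prop :=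
  ∃ S : (H →L[ℂ] H)ˣ, ∀ g : G,
    (S : H →L[ℂ] H) * (π g : H →L[ℂ] H) * ((S⁻¹ : (H →L[ℂ] H)ˣ) : H →L[ℂ] H)
      ∈ unitary (H →L[ℂ] H)

/-- `G` is unitarizable: every uniformly bounded representation of `G` on a Hilbert space is
unitarizable. -/
def UnitarizableGroup (G : Type) [Group G] : Prop :=
  ∀ (H : Type) [NormedAddCommGroup H] [InnerProductSpace ℂ H] [CompleteSpace H]
    (π : G →* (H →L[ℂ] H)ˣ),
    (∃ C : ℝ, ∀ g : G, ‖(π g : H →L[ℂ] H)‖ ≤ C) → Unitarizable π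

/-- `B(G)`, the Fourier–Stieltjes algebra: the coefficients `g ↦ ⟪a, σ(g) b⟫` of the unitary
representations of `G`. -/
def BG (G : Type) [Group G] : Set (G → ℂ) :=
  {φ | ∃ (K : Type) (_ : NormedAddCommGroup K) (_ : InnerProductSpace ℂ K) (_ : CompleteSpace K)
    (σ : G →* unitary (K →L[ℂ] K)) (a b : K), ∀ g : G, φ g = ⟪a, (σ g : K →L[ℂ] K) b⟫_ℂ}

/-- `UB(G)`: the coefficients `g ↦ ⟪a, π(g) b⟫` of the uniformly bounded representations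
of `G`. -/
def UBG (G : Type) [Group G] : Set (G → ℂ) :=
  {φ | ∃ (K : Type) (_ : NormedAddCommGroup K) (_ : InnerProductSpace ℂ K) (_ : CompleteSpace K)
    (π : G →* (K →L[ℂ] K)ˣ) (a b : K), (∃ C : ℝ, ∀ g : G, ‖(π g : K →L[ℂ] K)‖ ≤ C) ∧
      ∀ g : G, φ g = ⟪a, (π g : K →L[ℂ] K) b⟫_ℂ}

/-- The operator `∑ f(g) π(g)`, for `f` in the complex group algebra. -/
def opOf {G H : Type} [Group G] [NormedAddCommGroup H] [InnerProductSpace ℂ H]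
    (π : G →* (H →L[ℂ] H)ˣ) (f : MonoidAlgebra ℂ G) : H →L[ℂ] H :=
  MonoidAlgebra.lift ℂ (H →L[ℂ] H) G ((Units.coeHom (H →L[ℂ] H)).comp π) f

/-- The operator `∑ f(g) σ(g)`, for `f` in the complex group algebra and a unitary
representation `σ`. -/
def opOfU {G K : Type} [Group G] [NormedAddCommGroup K] [InnerProductSpace ℂ K] [CompleteSpace K]
    (σ : G →* unitary (K →L[ℂ] K)) (f : MonoidAlgebra ℂ G) : K →L[ℂ] K :=
  MonoidAlgebra.lift ℂ (K →L[ℂ] K) G ((unitary (K →L[ℂ] K)).subtype.comp σ) f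

/-- The norm of `f` in the full group C*-algebra `C*(G)`: the supremum of `‖σ(f)‖` over all
unitary representations `σ`. -/
def fullNorm {G : Type} [Group G] (f : MonoidAlgebra ℂ G) : ℝ :=
  sSup {r | ∃ (K : Type) (_ : NormedAddCommGroup K) (_ : InnerProductSpace ℂ K)
    (_ : CompleteSpace K) (σ : G →* unitary (K →L[ℂ] K)), r = ‖opOfU σ f‖}

/-- The space `M_d(G)`: the functions `φ` with
`φ(t_1 t_2 ⋯ t_d) = ⟪a, ξ_1(t_1) ξ_2(t_2) ⋯ ξ_d(t_d) b⟫` for all `t_1, …, t_d ∈ G`, for bounded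
maps `ξ_1, …, ξ_d : G → B(K)` and vectors `a, b` of a Hilbert space `K`. -/
def MdG (G : Type) [Group G] (d : ℕ) : Set (G → ℂ) :=
  {φ | ∃ (K : Type) (_ : NormedAddCommGroup K) (_ : InnerProductSpace ℂ K) (_ : CompleteSpace K)
    (ξ : Fin d → G → (K →L[ℂ] K)) (a b : K), (∃ C : ℝ, ∀ i g, ‖ξ i g‖ ≤ C) ∧
      ∀ t : Fin d → G, φ (List.ofFn t).prod =
        ⟪a, (List.ofFn fun i => ξ i (t i)).prod b⟫_ℂ}

/-- All coefficients `g ↦ ⟪x, π(g) y⟫` lie in `B(G)`. -/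
def AllCoefInB {G H : Type} [Group G] [NormedAddCommGroup H] [InnerProductSpace ℂ H]
    (π : G →* (H →L[ℂ] H)ˣ) : Prop :=
  ∀ x y : H, (fun g => ⟪x, (π g : H →L[ℂ] H) y⟫_ℂ) ∈ BG G

/-- For a non-meagre set of vectors `x`, the coefficient `g ↦ ⟪x, π(g) x⟫` lies in `B(G)`. -/
def NonmeagreDiagInB {G H : Type} [Group G] [NormedAddCommGroup H] [InnerProductSpace ℂ H]
    (π : G →* (H →L[ℂ] H)ˣ) : Prop :=
  ¬ IsMeagre {x : H | (fun g => ⟪x, (π g : H →L[ℂ] H) x⟫_ℂ) ∈ BG G}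

/-- `‖π(f)‖ ≤ c ‖f‖` for all `f` in the group algebra, with the norm of `C*(G)`. -/
def CStarBdd {G H : Type} [Group G] [NormedAddCommGroup H] [InnerProductSpace ℂ H]
    (π : G →* (H →L[ℂ] H)ˣ) (c : ℝ) : Prop :=
  ∀ f : MonoidAlgebra ℂ G, ‖opOf π f‖ ≤ c * fullNorm f

/-- `S π(g) S⁻¹` is unitary for all `g`, for an invertible `S` with `‖S‖² ≤ b`, `‖S⁻¹‖² ≤ b`. -/
def UnitarizableWith {G H : Type} [Group G] [NormedAddCommGroup H] [InnerProductSpace ℂ H]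
    [CompleteSpace H] (π : G →* (H →L[ℂ] H)ˣ) (b : ℝ) : Prop :=
  ∃ S : (H →L[ℂ] H)ˣ, ‖(S : H →L[ℂ] H)‖ ^ 2 ≤ b ∧
    ‖((S⁻¹ : (H →L[ℂ] H)ˣ) : H →L[ℂ] H)‖ ^ 2 ≤ b ∧
    ∀ g : G, (S : H →L[ℂ] H) * (π g : H →L[ℂ] H) * ((S⁻¹ : (H →L[ℂ] H)ˣ) : H →L[ℂ] H)
      ∈ unitary (H →L[ℂ] H)

end Pool.Agent.H231R3.UB
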