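import Mathlib
import Pool.Agent.H231R3.UB.Defs

/-!
# Extension of a bounded homomorphism of the group algebra to a C*-algebra
-/

set_option autoImplicit false

noncomputable section

namespace Pool.Agent.H231R3.UB

open scoped InnerProductSpace ENNReal

/-- Statement of the similarity theorem for C*-algebras. -/
def KadSim : Prop :=
  ∀ (A : Type) [CStarAlgebra A]
    (H : Type) [NormedAddCommGroup H] [InnerProductSpace ℂ H] [CompleteSpace H]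
    (u : A →ₐ[ℂ] (H →L[ℂ] H)) (c : ℝ) (_ : 1 ≤ c) (_ : ∀ x : A, ‖u x‖ ≤ c * ‖x‖),
    ∃ ξ : (H →L[ℂ] H)ˣ,
      ‖(ξ : H →L[ℂ] H)‖ ^ 2 ≤ 864 * (2 * c) ^ 29 ∧
      ‖((ξ⁻¹ : (H →L[ℂ] H)ˣ) : H →L[ℂ] H)‖ ^ 2 ≤ 864 * (2 * c) ^ 29 ∧
      ∀ x : A, (ξ : H →L[ℂ] H) * u (star x) * ((ξ⁻¹ : (H →L[ℂ] H)ˣ) : H →L[ℂ] H)
        = star ((ξ : H →L[ℂ] H) * u x * ((ξ⁻¹ : (H →L[ℂ] H)ˣ) : H →L[ℂ] H))

/-- The similarity theorem for a homomorphism of an algebra `R`, bounded with respect to a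
homomorphism of `R` into a C*-algebra with self-adjoint range. -/
theorem sim_of_alg (hK : KadSim) {R : Type} [Ring R] [Algebra ℂ R] {L : Type} [CStarAlgebra L]
    (Sg : R →ₐ[ℂ] L) (hstar : ∀ f : R, ∃ f' : R, Sg f' = star (Sg f))
    {H : Type} [NormedAddCommGroup H] [InnerProductSpace ℂ H] [CompleteSpace H]
    (P : R →ₐ[ℂ] (H →L[ℂ] H)) (c : ℝ) (hc : 1 ≤ c) (hP : ∀ f : R, ‖P f‖ ≤ c * ‖Sg f‖) :
    ∃ ξ : (H →L[ℂ] H)ˣ,
      ‖(ξ : H →L[ℂ] H)‖ ^ 2 ≤ 864 * (2 * c) ^ 29 ∧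
      ‖((ξ⁻¹ : (H →L[ℂ] H)ˣ) : H →L[ℂ] H)‖ ^ 2 ≤ 864 * (2 * c) ^ 29 ∧
      ∀ f f' : R, Sg f' = star (Sg f) →
        (ξ : H →L[ℂ] H) * P f' * ((ξ⁻¹ : (H →L[ℂ] H)ˣ) : H →L[ℂ] H)
        = star ((ξ : H →L[ℂ] H) * P f * ((ξ⁻¹ : (H →L[ℂ] H)ˣ) : H →L[ℂ] H)) := by
  classical
  -- the star subalgebra
  let R0 : StarSubalgebra ℂ L :=
    { Sg.range with
      star_mem' := by
        rintro _ ⟨f, rfl⟩
        obtain ⟨f', hf'⟩ := hstar f
        exact ⟨f', hf'⟩ }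
  have hR0 : (R0 : Set L) = Set.range Sg := rfl
  let T : StarSubalgebra ℂ L := R0.topologicalClosure
  have hTc : IsClosed (T : Set L) := R0.isClosed_topologicalClosure
  haveI : IsClosed (T : Set L) := hTc
  have hmem : ∀ f : R, Sg f ∈ T := fun f => R0.le_topologicalClosure ⟨f, rfl⟩
  letI : CStarAlgebra T := StarSubalgebra.cstarAlgebra T
  let e : R →ₗ[ℂ] T :=
    { toFun := fun f => ⟨Sg f, hmem f⟩
      map_add' := fun f g => Subtype.ext (map_add Sg f g)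
      map_smul' := fun a f => Subtype.ext (map_smul Sg a f) }
  have he : ∀ f, ((e f : T) : L) = Sg f := fun f => rfl
  have hen : ∀ f, ‖e f‖ = ‖Sg f‖ := fun f => rfl
  have hdense : DenseRange e := by
    intro x
    have hx : (x : L) ∈ closure (R0 : Set L) := x.2
    rw [Metric.mem_closure_iff] at hx ⊢
    intro ε hε
    obtain ⟨y, hy, hxy⟩ := hx ε hε
    obtain ⟨f, rfl⟩ : ∃ f, Sg f = y := hy
    exact ⟨e f, ⟨f, rfl⟩, hxy⟩
  have hbd : ∀ f, ‖(P.toLinearMap) f‖ ≤ c * ‖e f‖ := fun f => by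
    rw [hen]; exact hP f
  let u0 : T →L[ℂ] (H →L[ℂ] H) := (P.toLinearMap).extendOfNorm e
  have hu0 : ∀ f, u0 (e f) = P f := fun f =>
    LinearMap.extendOfNorm_eq hdense ⟨c, hbd⟩ f
  have hu0n : ∀ x, ‖u0 x‖ ≤ c * ‖x‖ := fun x =>
    LinearMap.norm_extendOfNorm_apply_le hdense c hbd x
  have hone : u0 1 = 1 := by
    have h1 : (1 : T) = e 1 := Subtype.ext (by rw [he, map_one]; rfl)
    rw [h1, hu0, map_one]
  have hmul : ∀ x y : T, u0 (x * y) = u0 x * u0 y := by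
    intro x y
    refine hdense.induction_on₂ (p := fun x y => u0 (x * y) = u0 x * u0 y) ?_ ?_ x y
    · exact isClosed_eq (by fun_prop) (by fun_prop)
    · intro f g
      have h1 : e f * e g = e (f * g) := Subtype.ext (by
        rw [he, map_mul]; rfl)
      rw [h1, hu0, hu0, hu0, map_mul]
  let u : T →ₐ[ℂ] (H →L[ℂ] H) := AlgHom.ofLinearMap u0.toLinearMap hone hmul
  have huu : ∀ x, u x = u0 x := fun x => rfl
  obtain ⟨ξ, h1, h2, h3⟩ := hK T H u c hc (fun x => by rw [huu]; exact hu0n x)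
  refine ⟨ξ, h1, h2, ?_⟩
  intro f f' hff
  have h4 := h3 (e f)
  have h5 : star (e f) = e f' := Subtype.ext (by rw [he, hff]; rfl)
  rw [h5, huu, huu, hu0, hu0] at h4
  exact h4

end Pool.Agent.H231R3.UB
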