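import Mathlib
import Pool.Agent.H231R3.UB.Ext

/-!
# The universal C*-algebra and the similarity theorem for `G`
-/

set_option autoImplicit false

noncomputable section

namespace Pool.Agent.H231R3.UB

open scoped InnerProductSpace ENNReal

variable {G : Type} [Group G]

theorem norm_unitary_le {K : Type} [NormedAddCommGroup K] [InnerProductSpace ℂ K]
    [CompleteSpace K] (U : unitary (K →L[ℂ] K)) : ‖(U : K →L[ℂ] K)‖ ≤ 1 := by
  have h1 : ‖(U : K →L[ℂ] K)‖ * ‖(U : K →L[ℂ] K)‖ = ‖star (U : K →L[ℂ] K) * (U : K →L[ℂ] K)‖ :=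
    (CStarRing.norm_star_mul_self).symm
  rw [Unitary.coe_star_mul_self] at h1
  have h2 : ‖(1 : K →L[ℂ] K)‖ ≤ 1 := ContinuousLinearMap.norm_id_le
  nlinarith [norm_nonneg (U : K →L[ℂ] K)]

theorem opOfU_single {K : Type} [NormedAddCommGroup K] [InnerProductSpace ℂ K] [CompleteSpace K]
    (σ : G →* unitary (K →L[ℂ] K)) (g : G) (a : ℂ) :
    opOfU σ (MonoidAlgebra.single g a) = a • (σ g : K →L[ℂ] K) := by
  simp [opOfU]

theorem opOf_single {K : Type} [NormedAddCommGroup K] [InnerProductSpace ℂ K]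
    (π : G →* (K →L[ℂ] K)ˣ) (g : G) (a : ℂ) :
    opOf π (MonoidAlgebra.single g a) = a • (π g : K →L[ℂ] K) := by
  simp [opOf]

theorem opOfU_add {K : Type} [NormedAddCommGroup K] [InnerProductSpace ℂ K] [CompleteSpace K]
    (σ : G →* unitary (K →L[ℂ] K)) (f f' : MonoidAlgebra ℂ G) :
    opOfU σ (f + f') = opOfU σ f + opOfU σ f' := map_add _ _ _

theorem opOfU_smul {K : Type} [NormedAddCommGroup K] [InnerProductSpace ℂ K] [CompleteSpace K]
    (σ : G →* unitary (K →L[ℂ] K)) (a : ℂ) (f : MonoidAlgebra ℂ G) :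
    opOfU σ (a • f) = a • opOfU σ f := map_smul _ _ _

/-- A bound for all unitary representations. -/
theorem exists_bound (f : MonoidAlgebra ℂ G) : ∃ C : ℝ, ∀ (K : Type) [NormedAddCommGroup K]
    [InnerProductSpace ℂ K] [CompleteSpace K] (σ : G →* unitary (K →L[ℂ] K)),
    ‖opOfU σ f‖ ≤ C := by
  induction f using MonoidAlgebra.induction_on with
  | of g =>
    refine ⟨1, ?_⟩
    intro K _ _ _ σ
    rw [MonoidAlgebra.of_apply, opOfU_single, one_smul]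
    exact norm_unitary_le _
  | add f f' h h' =>
    obtain ⟨C, hC⟩ := h
    obtain ⟨C', hC'⟩ := h'
    refine ⟨C + C', ?_⟩
    intro K _ _ _ σ
    rw [opOfU_add]
    exact (norm_add_le _ _).trans (add_le_add (hC K σ) (hC' K σ))
  | smul r f h =>
    obtain ⟨C, hC⟩ := h
    refine ⟨‖r‖ * C, ?_⟩
    intro K _ _ _ σ
    rw [opOfU_smul, norm_smul]
    exact mul_le_mul_of_nonneg_left (hC K σ) (norm_nonneg _)

/-- The adjoint in the group algebra. -/
theorem exists_star (f : MonoidAlgebra ℂ G) : ∃ f' : MonoidAlgebra ℂ G, ∀ (K : Type)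
    [NormedAddCommGroup K] [InnerProductSpace ℂ K] [CompleteSpace K]
    (σ : G →* unitary (K →L[ℂ] K)), opOfU σ f' = star (opOfU σ f) := by
  induction f using MonoidAlgebra.induction_on with
  | of g =>
    refine ⟨MonoidAlgebra.single g⁻¹ 1, ?_⟩
    intro K _ _ _ σ
    rw [MonoidAlgebra.of_apply, opOfU_single, opOfU_single, one_smul, one_smul, map_inv]
    rfl
  | add f f' h h' =>
    obtain ⟨C, hC⟩ := h
    obtain ⟨C', hC'⟩ := h'
    refine ⟨C + C', ?_⟩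
    intro K _ _ _ σ
    rw [opOfU_add, opOfU_add, star_add, hC, hC']
  | smul r f h =>
    obtain ⟨C, hC⟩ := h
    refine ⟨(star r) • C, ?_⟩
    intro K _ _ _ σ
    rw [opOfU_smul, opOfU_smul, star_smul, hC]

theorem bddAbove_full (f : MonoidAlgebra ℂ G) :
    BddAbove {r : ℝ | ∃ (K : Type) (_ : NormedAddCommGroup K) (_ : InnerProductSpace ℂ K)
      (_ : CompleteSpace K) (σ : G →* unitary (K →L[ℂ] K)), r = ‖opOfU σ f‖} := by
  obtain ⟨C, hC⟩ := exists_bound f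
  refine ⟨C, ?_⟩
  rintro r ⟨K, i1, i2, i3, σ, rfl⟩
  exact hC K σ

theorem le_fullNorm {K : Type} [NormedAddCommGroup K] [InnerProductSpace ℂ K] [CompleteSpace K]
    (σ : G →* unitary (K →L[ℂ] K)) (f : MonoidAlgebra ℂ G) : ‖opOfU σ f‖ ≤ fullNorm f :=
  le_csSup (bddAbove_full f) ⟨K, inferInstance, inferInstance, inferInstance, σ, rfl⟩

theorem fullNorm_nonneg (f : MonoidAlgebra ℂ G) : 0 ≤ fullNorm f :=
  (norm_nonneg _).trans (le_fullNorm (1 : G →* unitary (ℂ →L[ℂ] ℂ)) f)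

theorem exists_rep (f : MonoidAlgebra ℂ G) (n : ℕ) : ∃ (K : Type) (_ : NormedAddCommGroup K)
    (_ : InnerProductSpace ℂ K) (_ : CompleteSpace K) (_ : Nontrivial K)
    (σ : G →* unitary (K →L[ℂ] K)), fullNorm f - 1 / ((n : ℝ) + 1) < ‖opOfU σ f‖ := by
  have hne : {r : ℝ | ∃ (K : Type) (_ : NormedAddCommGroup K) (_ : InnerProductSpace ℂ K)
      (_ : CompleteSpace K) (σ : G →* unitary (K →L[ℂ] K)), r = ‖opOfU σ f‖}.Nonempty :=
    ⟨_, ℂ, inferInstance, inferInstance, inferInstance, 1, rfl⟩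
  have hpos : 0 < 1 / ((n : ℝ) + 1) := by positivity
  obtain ⟨r, ⟨K, i1, i2, i3, σ, rfl⟩, hr⟩ := exists_lt_of_lt_csSup hne
    (show fullNorm f - 1 / ((n : ℝ) + 1) < _ from sub_lt_self _ hpos)
  rcases subsingleton_or_nontrivial K with hs | hn
  · refine ⟨ℂ, inferInstance, inferInstance, inferInstance, inferInstance, 1, ?_⟩
    have h0 : opOfU σ f = 0 := Subsingleton.elim _ _
    rw [h0, norm_zero] at hr
    exact hr.trans_le (norm_nonneg _)
  · exact ⟨K, i1, i2, i3, hn, σ, hr⟩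

/-- A family of unitary representations computing `fullNorm`. -/
theorem exists_family (G : Type) [Group G] : ∃ (I : Type) (K : I → Type)
    (_ : ∀ i, NormedAddCommGroup (K i))
    (_ : ∀ i, InnerProductSpace ℂ (K i)) (_ : ∀ i, CompleteSpace (K i))
    (_ : ∀ i, Nontrivial (K i)) (σ : ∀ i, G →* unitary (K i →L[ℂ] K i)),
    ∀ (f : MonoidAlgebra ℂ G) (n : ℕ), ∃ i, fullNorm f - 1 / ((n : ℝ) + 1) < ‖opOfU (σ i) f‖ := by
  classical
  choose K i1 i2 i3 i4 σ h using fun p : MonoidAlgebra ℂ G × ℕ => exists_rep p.1 p.2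
  exact ⟨MonoidAlgebra ℂ G × ℕ, K, i1, i2, i3, i4, σ, fun f n => ⟨(f, n), h (f, n)⟩⟩

/-- The similarity theorem for groups: a homomorphism of `G` into the invertible operators that is
bounded for the norm of `C*(G)` is unitarizable. -/
theorem sim_group (hK : KadSim) {H : Type} [NormedAddCommGroup H] [InnerProductSpace ℂ H]
    [CompleteSpace H] (π : G →* (H →L[ℂ] H)ˣ) (c : ℝ) (hc : 1 ≤ c)
    (hP : ∀ f : MonoidAlgebra ℂ G, ‖opOf π f‖ ≤ c * fullNorm f) :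
    ∃ ξ : (H →L[ℂ] H)ˣ,
      ‖(ξ : H →L[ℂ] H)‖ ^ 2 ≤ 864 * (2 * c) ^ 29 ∧
      ‖((ξ⁻¹ : (H →L[ℂ] H)ˣ) : H →L[ℂ] H)‖ ^ 2 ≤ 864 * (2 * c) ^ 29 ∧
      ∀ g : G, (ξ : H →L[ℂ] H) * (π g : H →L[ℂ] H) * ((ξ⁻¹ : (H →L[ℂ] H)ˣ) : H →L[ℂ] H)
        ∈ unitary (H →L[ℂ] H) := by
  classical
  obtain ⟨I, K, i1, i2, i3, i4, σ, hσ⟩ := exists_family G
  -- the product C*-algebra
  let L := lp (fun i => K i →L[ℂ] K i) ∞
  letI : CStarAlgebra L := { }
  have hm : ∀ f : MonoidAlgebra ℂ G, Memℓp (fun i => opOfU (σ i) f) ∞ := by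
    intro f
    refine memℓp_infty ⟨fullNorm f, ?_⟩
    rintro _ ⟨i, rfl⟩
    exact le_fullNorm (σ i) f
  let Sg : MonoidAlgebra ℂ G →ₐ[ℂ] L :=
    { toFun := fun f => ⟨fun i => opOfU (σ i) f, hm f⟩
      map_one' := by
        ext i
        exact DFunLike.congr_fun (map_one (MonoidAlgebra.lift ℂ (K i →L[ℂ] K i) G
          ((unitary (K i →L[ℂ] K i)).subtype.comp (σ i)))) _
      map_mul' := by
        intro f g
        ext i
        exact DFunLike.congr_fun (map_mul (MonoidAlgebra.lift ℂ (K i →L[ℂ] K i) G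
          ((unitary (K i →L[ℂ] K i)).subtype.comp (σ i))) f g) _
      map_zero' := by
        ext i
        exact DFunLike.congr_fun (map_zero (MonoidAlgebra.lift ℂ (K i →L[ℂ] K i) G
          ((unitary (K i →L[ℂ] K i)).subtype.comp (σ i)))) _
      map_add' := by
        intro f g
        ext i
        exact DFunLike.congr_fun (map_add (MonoidAlgebra.lift ℂ (K i →L[ℂ] K i) G
          ((unitary (K i →L[ℂ] K i)).subtype.comp (σ i))) f g) _
      commutes' := by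
        intro r
        ext i
        exact DFunLike.congr_fun (AlgHom.commutes (MonoidAlgebra.lift ℂ (K i →L[ℂ] K i) G
          ((unitary (K i →L[ℂ] K i)).subtype.comp (σ i))) r) _ }
  have hSg : ∀ f i, (Sg f : L) i = opOfU (σ i) f := fun f i => rfl
  have hstar : ∀ f : MonoidAlgebra ℂ G, ∃ f', Sg f' = star (Sg f) := by
    intro f
    obtain ⟨f', hf'⟩ := exists_star f
    refine ⟨f', ?_⟩
    ext1
    funext i
    rw [hSg, hf', lp.coeFn_star, Pi.star_apply, hSg]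
  have hnorm : ∀ f, fullNorm f ≤ ‖Sg f‖ := by
    intro f
    refine le_of_forall_pos_le_add ?_
    intro ε hε
    obtain ⟨n, hn⟩ := exists_nat_one_div_lt hε
    obtain ⟨i, hi⟩ := hσ f n
    have h1 : ‖(Sg f : L) i‖ ≤ ‖Sg f‖ := lp.norm_apply_le_norm (by simp) (Sg f) i
    rw [hSg] at h1
    linarith
  let P : MonoidAlgebra ℂ G →ₐ[ℂ] (H →L[ℂ] H) :=
    MonoidAlgebra.lift ℂ (H →L[ℂ] H) G ((Units.coeHom (H →L[ℂ] H)).comp π)
  obtain ⟨ξ, h1, h2, h3⟩ := sim_of_alg hK Sg hstar P c hc (fun f =>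
    (hP f).trans (mul_le_mul_of_nonneg_left (hnorm f) (by linarith)))
  refine ⟨ξ, h1, h2, ?_⟩
  intro g
  have hg : Sg (MonoidAlgebra.single g⁻¹ 1) = star (Sg (MonoidAlgebra.single g 1)) := by
    ext1
    funext i
    rw [hSg, lp.coeFn_star, Pi.star_apply, hSg, opOfU_single, opOfU_single, one_smul, one_smul,
      map_inv]
    rfl
  have h4 := h3 _ _ hg
  have hPs : ∀ g : G, P (MonoidAlgebra.single g 1) = (π g : H →L[ℂ] H) := fun g => by
    have := opOf_single π g 1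
    rw [one_smul] at this
    exact this
  rw [hPs, hPs] at h4
  have hinv : (π g⁻¹ : H →L[ℂ] H) * (π g : H →L[ℂ] H) = 1 := by
    rw [← Units.val_mul, ← map_mul, inv_mul_cancel, map_one, Units.val_one]
  have hinv' : (π g : H →L[ℂ] H) * (π g⁻¹ : H →L[ℂ] H) = 1 := by
    rw [← Units.val_mul, ← map_mul, mul_inv_cancel, map_one, Units.val_one]
  have hx : ((ξ⁻¹ : (H →L[ℂ] H)ˣ) : H →L[ℂ] H) * (ξ : H →L[ℂ] H) = 1 := Units.inv_mul ξ
  have hx' : (ξ : H →L[ℂ] H) * ((ξ⁻¹ : (H →L[ℂ] H)ˣ) : H →L[ℂ] H) = 1 := Units.mul_inv ξ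
  rw [Unitary.mem_iff]
  constructor
  · rw [← h4]
    calc _ = (ξ : H →L[ℂ] H) * (π g⁻¹ : H →L[ℂ] H) *
          (((ξ⁻¹ : (H →L[ℂ] H)ˣ) : H →L[ℂ] H) * (ξ : H →L[ℂ] H)) * (π g : H →L[ℂ] H) *
            ((ξ⁻¹ : (H →L[ℂ] H)ˣ) : H →L[ℂ] H) := by simp only [mul_assoc]
      _ = (ξ : H →L[ℂ] H) * ((π g⁻¹ : H →L[ℂ] H) * (π g : H →L[ℂ] H)) *
            ((ξ⁻¹ : (H →L[ℂ] H)ˣ) : H →L[ℂ] H) := by rw [hx, mul_one]; simp only [mul_assoc]
      _ = 1 := by rw [hinv, mul_one, hx']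
  · rw [← h4]
    calc _ = (ξ : H →L[ℂ] H) * (π g : H →L[ℂ] H) *
          (((ξ⁻¹ : (H →L[ℂ] H)ˣ) : H →L[ℂ] H) * (ξ : H →L[ℂ] H)) * (π g⁻¹ : H →L[ℂ] H) *
            ((ξ⁻¹ : (H →L[ℂ] H)ˣ) : H →L[ℂ] H) := by simp only [mul_assoc]
      _ = (ξ : H →L[ℂ] H) * ((π g : H →L[ℂ] H) * (π g⁻¹ : H →L[ℂ] H)) *
            ((ξ⁻¹ : (H →L[ℂ] H)ˣ) : H →L[ℂ] H) := by rw [hx, mul_one]; simp only [mul_assoc]
      _ = 1 := by rw [hinv', mul_one, hx']

end Pool.Agent.H231R3.UB
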