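import Mathlib
import Pool.Agent.H231R3.UB.Univ

/-!
# Unitarizability and coefficients
-/

set_option autoImplicit false

noncomputable section

namespace Pool.Agent.H231R3.UB

open scoped InnerProductSpace ENNReal

variable {G : Type} [Group G]

theorem opOf_add {H : Type} [NormedAddCommGroup H] [InnerProductSpace ℂ H]
    (π : G →* (H →L[ℂ] H)ˣ) (f f' : MonoidAlgebra ℂ G) :
    opOf π (f + f') = opOf π f + opOf π f' := map_add _ _ _

theorem opOf_smul {H : Type} [NormedAddCommGroup H] [InnerProductSpace ℂ H]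
    (π : G →* (H →L[ℂ] H)ˣ) (a : ℂ) (f : MonoidAlgebra ℂ G) :
    opOf π (a • f) = a • opOf π f := map_smul _ _ _

/-- The matrix coefficient. -/
theorem coef_bound {H : Type} [NormedAddCommGroup H] [InnerProductSpace ℂ H] [CompleteSpace H]
    (π : G →* (H →L[ℂ] H)ˣ) (x y : H)
    (h : (fun g => ⟪x, (π g : H →L[ℂ] H) y⟫_ℂ) ∈ BG G) :
    ∃ C : ℝ, ∀ f : MonoidAlgebra ℂ G, ‖⟪x, opOf π f y⟫_ℂ‖ ≤ C * fullNorm f := by
  obtain ⟨K, i1, i2, i3, σ, a, b, hab⟩ := h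
  have key : ∀ f : MonoidAlgebra ℂ G, ⟪x, opOf π f y⟫_ℂ = ⟪a, opOfU σ f b⟫_ℂ := by
    intro f
    induction f using MonoidAlgebra.induction_on with
    | of g =>
      rw [MonoidAlgebra.of_apply, opOfU_single, opOf_single, one_smul, one_smul]
      exact hab g
    | add f f' h h' =>
      rw [opOfU_add, opOf_add, add_apply, add_apply,
        inner_add_right, inner_add_right, h, h']
    | smul r f h =>
      rw [opOfU_smul, opOf_smul, smul_apply, smul_apply,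
        inner_smul_right, inner_smul_right, h]
  refine ⟨‖a‖ * ‖b‖, fun f => ?_⟩
  rw [key]
  calc ‖⟪a, opOfU σ f b⟫_ℂ‖ ≤ ‖a‖ * ‖opOfU σ f b‖ := norm_inner_le_norm _ _
    _ ≤ ‖a‖ * (‖opOfU σ f‖ * ‖b‖) := by
        gcongr; exact (opOfU σ f).le_opNorm b
    _ ≤ ‖a‖ * (fullNorm f * ‖b‖) := by
        gcongr; exact le_fullNorm σ f
    _ = ‖a‖ * ‖b‖ * fullNorm f := by ring

/-- The set of vectors whose diagonal coefficient is bounded by `n` in the norm of `B(G)`. -/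
def diagSet {H : Type} [NormedAddCommGroup H] [InnerProductSpace ℂ H]
    (π : G →* (H →L[ℂ] H)ˣ) (n : ℕ) : Set H :=
  {x | ∀ f : MonoidAlgebra ℂ G, ‖⟪x, opOf π f x⟫_ℂ‖ ≤ n * fullNorm f}

theorem isClosed_diagSet {H : Type} [NormedAddCommGroup H] [InnerProductSpace ℂ H]
    (π : G →* (H →L[ℂ] H)ˣ) (n : ℕ) : IsClosed (diagSet π n) := by
  have : diagSet π n = ⋂ f : MonoidAlgebra ℂ G, {x | ‖⟪x, opOf π f x⟫_ℂ‖ ≤ n * fullNorm f} := by
    ext x; simp [diagSet]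
  rw [this]
  refine isClosed_iInter fun f => isClosed_le ?_ continuous_const
  exact (continuous_id.inner ((opOf π f).continuous)).norm

/-- If the set of good vectors is not meagre, all diagonal coefficients are uniformly bounded. -/
theorem diag_bound {H : Type} [NormedAddCommGroup H] [InnerProductSpace ℂ H] [CompleteSpace H]
    (π : G →* (H →L[ℂ] H)ˣ)
    (h : ¬ IsMeagre {x : H | (fun g => ⟪x, (π g : H →L[ℂ] H) x⟫_ℂ) ∈ BG G}) :
    ∃ C : ℝ, 0 ≤ C ∧ ∀ (x : H) (f : MonoidAlgebra ℂ G),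
      ‖⟪x, opOf π f x⟫_ℂ‖ ≤ C * ‖x‖ ^ 2 * fullNorm f := by
  have hsub : {x : H | (fun g => ⟪x, (π g : H →L[ℂ] H) x⟫_ℂ) ∈ BG G} ⊆
      ⋃ n : ℕ, diagSet π n := by
    intro x hx
    obtain ⟨C, hC⟩ := coef_bound π x x hx
    obtain ⟨n, hn⟩ := exists_nat_ge C
    rw [Set.mem_iUnion]
    exact ⟨n, fun f => (hC f).trans (mul_le_mul_of_nonneg_right hn (fullNorm_nonneg f))⟩
  have hex : ∃ n : ℕ, (interior (diagSet π n)).Nonempty := by
    by_contra hcon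
    push Not at hcon
    apply h
    refine IsMeagre.mono hsub ?_
    refine isMeagre_iUnion fun n => ?_
    refine IsNowhereDense.isMeagre ?_
    rw [(isClosed_diagSet π n).isNowhereDense_iff]
    exact hcon n
  obtain ⟨n, x0, hx0⟩ := hex
  rw [mem_interior_iff_mem_nhds, Metric.mem_nhds_iff] at hx0
  obtain ⟨r, hr, hball⟩ := hx0
  have hx0' : x0 ∈ diagSet π n := hball (Metric.mem_ball_self hr)
  have hsmall : ∀ z : H, ‖z‖ < r → ∀ f : MonoidAlgebra ℂ G,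
      ‖⟪z, opOf π f z⟫_ℂ‖ ≤ 2 * n * fullNorm f := by
    intro z hz f
    have h1 : x0 + z ∈ diagSet π n := hball (by simpa [Metric.mem_ball, dist_eq_norm] using hz)
    have h2 : x0 - z ∈ diagSet π n := hball (by
      rw [Metric.mem_ball, dist_eq_norm]; simpa using hz)
    have e1 : ⟪z, opOf π f z⟫_ℂ = (1 / 2 : ℂ) * (⟪x0 + z, opOf π f (x0 + z)⟫_ℂ +
        ⟪x0 - z, opOf π f (x0 - z)⟫_ℂ) - ⟪x0, opOf π f x0⟫_ℂ := by
      simp only [map_add, map_sub, inner_add_left, inner_add_right, inner_sub_left,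
        inner_sub_right]
      ring
    rw [e1]
    have b1 := h1 f
    have b2 := h2 f
    have b3 := hx0' f
    have t1 := norm_sub_le ((1 / 2 : ℂ) * (⟪x0 + z, opOf π f (x0 + z)⟫_ℂ +
        ⟪x0 - z, opOf π f (x0 - z)⟫_ℂ)) (⟪x0, opOf π f x0⟫_ℂ)
    have t2 := norm_add_le (⟪x0 + z, opOf π f (x0 + z)⟫_ℂ) (⟪x0 - z, opOf π f (x0 - z)⟫_ℂ)
    have t3 : ‖(1 / 2 : ℂ) * (⟪x0 + z, opOf π f (x0 + z)⟫_ℂ +
        ⟪x0 - z, opOf π f (x0 - z)⟫_ℂ)‖ = (1 / 2) * ‖⟪x0 + z, opOf π f (x0 + z)⟫_ℂ +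
        ⟪x0 - z, opOf π f (x0 - z)⟫_ℂ‖ := by
      rw [norm_mul]; norm_num
    rw [t3] at t1
    linarith
  refine ⟨2 * n * (2 / r) ^ 2, by positivity, ?_⟩
  intro x f
  by_cases hx : x = 0
  · subst hx; simp
  have hxn : 0 < ‖x‖ := norm_pos_iff.2 hx
  set s : ℝ := r / (2 * ‖x‖) with hs
  have hspos : 0 < s := by positivity
  have hz : ‖(s : ℂ) • x‖ < r := by
    rw [norm_smul, Complex.norm_real, Real.norm_of_nonneg hspos.le, hs]
    have : r / (2 * ‖x‖) * ‖x‖ = r / 2 := by field_simp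
    rw [this]; linarith
  have h1 := hsmall _ hz f
  rw [map_smul, inner_smul_left, inner_smul_right, Complex.conj_ofReal, norm_mul, norm_mul,
    Complex.norm_real, Real.norm_of_nonneg hspos.le] at h1
  have h2 : ‖⟪x, opOf π f x⟫_ℂ‖ ≤ 2 * n * fullNorm f / s ^ 2 := by
    rw [le_div_iff₀ (by positivity)]
    nlinarith
  refine h2.trans (le_of_eq ?_)
  rw [hs]
  field_simp

/-- Boundedness of the sesquilinear form from the boundedness of the diagonal. -/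
theorem op_bound {H : Type} [NormedAddCommGroup H] [InnerProductSpace ℂ H] [CompleteSpace H]
    (π : G →* (H →L[ℂ] H)ˣ) (C : ℝ) (hC : 0 ≤ C)
    (h : ∀ (x : H) (f : MonoidAlgebra ℂ G), ‖⟪x, opOf π f x⟫_ℂ‖ ≤ C * ‖x‖ ^ 2 * fullNorm f)
    (f : MonoidAlgebra ℂ G) : ‖opOf π f‖ ≤ 4 * C * fullNorm f := by
  have hf := fullNorm_nonneg f
  -- unit vectors
  have key : ∀ x y : H, ‖x‖ ≤ 1 → ‖y‖ ≤ 1 → ‖⟪opOf π f y, x⟫_ℂ‖ ≤ 4 * C * fullNorm f := by
    intro x y hx hy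
    have hd : ∀ z : H, ‖z‖ ≤ 2 → ‖⟪opOf π f z, z⟫_ℂ‖ ≤ 4 * C * fullNorm f := by
      intro z hz
      rw [norm_inner_symm]
      refine (h z f).trans ?_
      have : ‖z‖ ^ 2 ≤ 4 := by nlinarith [norm_nonneg z]
      have h5 : C * ‖z‖ ^ 2 ≤ 4 * C := by nlinarith
      exact mul_le_mul_of_nonneg_right h5 hf
    have hI : ‖Complex.I • y‖ ≤ 1 := by rw [norm_smul, Complex.norm_I, one_mul]; exact hy
    have h1 := hd (x + y) ((norm_add_le _ _).trans (by linarith))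
    have h2 := hd (x - y) ((norm_sub_le _ _).trans (by linarith))
    have h3 := hd (x + Complex.I • y) ((norm_add_le _ _).trans (by linarith))
    have h4 := hd (x - Complex.I • y) ((norm_sub_le _ _).trans (by linarith))
    have hp := inner_map_polarization ((opOf π f : H →L[ℂ] H) : H →ₗ[ℂ] H) x y
    simp only [ContinuousLinearMap.coe_coe] at hp
    rw [hp, norm_div]
    have e4 : ‖(4 : ℂ)‖ = 4 := by norm_num
    rw [e4, div_le_iff₀ (by norm_num)]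
    refine (norm_sub_le _ _).trans ?_
    rw [norm_mul, Complex.norm_I, one_mul]
    have t1 := norm_add_le (⟪opOf π f (x + y), x + y⟫_ℂ - ⟪opOf π f (x - y), x - y⟫_ℂ)
      (Complex.I * ⟪opOf π f (x + Complex.I • y), x + Complex.I • y⟫_ℂ)
    rw [norm_mul, Complex.norm_I, one_mul] at t1
    have t2 := norm_sub_le (⟪opOf π f (x + y), x + y⟫_ℂ) (⟪opOf π f (x - y), x - y⟫_ℂ)
    linarith
  refine ContinuousLinearMap.opNorm_le_of_unit_norm (by positivity) ?_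
  intro y hy
  by_cases h0 : opOf π f y = 0
  · rw [h0, norm_zero]; positivity
  have hpos : 0 < ‖opOf π f y‖ := norm_pos_iff.2 h0
  have h1 := key (((‖opOf π f y‖⁻¹ : ℝ) : ℂ) • opOf π f y) y (by
    rw [norm_smul, Complex.norm_real, norm_inv, norm_norm, inv_mul_cancel₀ hpos.ne']) hy.le
  rw [inner_smul_right, inner_self_eq_norm_sq_to_K, norm_mul, Complex.norm_real, norm_inv,
    norm_norm] at h1
  have h2 : ‖((‖opOf π f y‖ : ℂ)) ^ 2‖ = ‖opOf π f y‖ ^ 2 := by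
    rw [norm_pow, Complex.norm_real, norm_norm]
  have h3 : ‖opOf π f y‖⁻¹ * ‖opOf π f y‖ ^ 2 = ‖opOf π f y‖ := by
    field_simp
  calc ‖opOf π f y‖ = ‖opOf π f y‖⁻¹ * ‖((‖opOf π f y‖ : ℂ)) ^ 2‖ := by rw [h2, h3]
    _ ≤ _ := h1

/-- The unitary representation attached to a unitarizable one. -/
theorem exists_unitary {H : Type} [NormedAddCommGroup H] [InnerProductSpace ℂ H]
    [CompleteSpace H] (π : G →* (H →L[ℂ] H)ˣ) (h : Unitarizable π) :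
    ∃ (S : (H →L[ℂ] H)ˣ) (σ : G →* unitary (H →L[ℂ] H)), ∀ g : G,
      (π g : H →L[ℂ] H) = ((S⁻¹ : (H →L[ℂ] H)ˣ) : H →L[ℂ] H) * (σ g : H →L[ℂ] H) *
        (S : H →L[ℂ] H) := by
  obtain ⟨S, hS⟩ := h
  have hx : ((S⁻¹ : (H →L[ℂ] H)ˣ) : H →L[ℂ] H) * (S : H →L[ℂ] H) = 1 := Units.inv_mul S
  have hx' : (S : H →L[ℂ] H) * ((S⁻¹ : (H →L[ℂ] H)ˣ) : H →L[ℂ] H) = 1 := Units.mul_inv S
  refine ⟨S, { toFun := fun g => ⟨_, hS g⟩, map_one' := ?_, map_mul' := ?_ }, ?_⟩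
  · apply Subtype.ext
    simp only [map_one, Units.val_one, mul_one, hx']
    rfl
  · intro g g'
    apply Subtype.ext
    change (S : H →L[ℂ] H) * (π (g * g') : H →L[ℂ] H) * ((S⁻¹ : (H →L[ℂ] H)ˣ) : H →L[ℂ] H) =
      ((S : H →L[ℂ] H) * (π g : H →L[ℂ] H) * ((S⁻¹ : (H →L[ℂ] H)ˣ) : H →L[ℂ] H)) *
      ((S : H →L[ℂ] H) * (π g' : H →L[ℂ] H) * ((S⁻¹ : (H →L[ℂ] H)ˣ) : H →L[ℂ] H))
    rw [map_mul, Units.val_mul]
    calc _ = (S : H →L[ℂ] H) * (π g : H →L[ℂ] H) * 1 * (π g' : H →L[ℂ] H) *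
          ((S⁻¹ : (H →L[ℂ] H)ˣ) : H →L[ℂ] H) := by simp only [mul_assoc, one_mul]
      _ = _ := by rw [← hx]; simp only [mul_assoc]
  · intro g
    change (π g : H →L[ℂ] H) = ((S⁻¹ : (H →L[ℂ] H)ˣ) : H →L[ℂ] H) *
      ((S : H →L[ℂ] H) * (π g : H →L[ℂ] H) * ((S⁻¹ : (H →L[ℂ] H)ˣ) : H →L[ℂ] H)) *
        (S : H →L[ℂ] H)
    calc (π g : H →L[ℂ] H) = 1 * (π g : H →L[ℂ] H) * 1 := by rw [one_mul, mul_one]
      _ = _ := by rw [← hx]; simp only [mul_assoc]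

theorem coef_mem {H : Type} [NormedAddCommGroup H] [InnerProductSpace ℂ H]
    [CompleteSpace H] (π : G →* (H →L[ℂ] H)ˣ) (h : Unitarizable π) (x y : H) :
    (fun g => ⟪x, (π g : H →L[ℂ] H) y⟫_ℂ) ∈ BG G := by
  obtain ⟨S, σ, hσ⟩ := exists_unitary π h
  refine ⟨H, inferInstance, inferInstance, inferInstance, σ,
    ContinuousLinearMap.adjoint ((S⁻¹ : (H →L[ℂ] H)ˣ) : H →L[ℂ] H) x, (S : H →L[ℂ] H) y, ?_⟩
  intro g
  rw [ContinuousLinearMap.adjoint_inner_left]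
  change ⟪x, (π g : H →L[ℂ] H) y⟫_ℂ = _
  rw [hσ g]
  rfl

theorem op_le_of_unitarizable {H : Type} [NormedAddCommGroup H] [InnerProductSpace ℂ H]
    [CompleteSpace H] (π : G →* (H →L[ℂ] H)ˣ) (h : Unitarizable π) :
    ∃ c : ℝ, ∀ f : MonoidAlgebra ℂ G, ‖opOf π f‖ ≤ c * fullNorm f := by
  obtain ⟨S, σ, hσ⟩ := exists_unitary π h
  refine ⟨‖((S⁻¹ : (H →L[ℂ] H)ˣ) : H →L[ℂ] H)‖ * ‖(S : H →L[ℂ] H)‖, ?_⟩
  have key : ∀ f : MonoidAlgebra ℂ G, opOf π f = ((S⁻¹ : (H →L[ℂ] H)ˣ) : H →L[ℂ] H) *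
      opOfU σ f * (S : H →L[ℂ] H) := by
    intro f
    induction f using MonoidAlgebra.induction_on with
    | of g =>
      rw [MonoidAlgebra.of_apply, opOfU_single, opOf_single, one_smul, one_smul]
      exact hσ g
    | add f f' h h' =>
      rw [opOfU_add, opOf_add, h, h', mul_add, add_mul]
    | smul r f h =>
      rw [opOfU_smul, opOf_smul, h, mul_smul_comm, smul_mul_assoc]
  intro f
  rw [key]
  calc ‖((S⁻¹ : (H →L[ℂ] H)ˣ) : H →L[ℂ] H) * opOfU σ f * (S : H →L[ℂ] H)‖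
      ≤ ‖((S⁻¹ : (H →L[ℂ] H)ˣ) : H →L[ℂ] H) * opOfU σ f‖ * ‖(S : H →L[ℂ] H)‖ := norm_mul_le _ _
    _ ≤ (‖((S⁻¹ : (H →L[ℂ] H)ˣ) : H →L[ℂ] H)‖ * ‖opOfU σ f‖) * ‖(S : H →L[ℂ] H)‖ := by
        gcongr; exact norm_mul_le _ _
    _ ≤ (‖((S⁻¹ : (H →L[ℂ] H)ˣ) : H →L[ℂ] H)‖ * fullNorm f) * ‖(S : H →L[ℂ] H)‖ := by
        gcongr; exact le_fullNorm σ f
    _ = _ := by ring

/-- The characterization of unitarizable homomorphisms. -/
theorem tfae_unitarizable (hK : KadSim) {H : Type} [NormedAddCommGroup H]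
    [InnerProductSpace ℂ H] [CompleteSpace H] (π : G →* (H →L[ℂ] H)ˣ) :
    List.TFAE [Unitarizable π,
      ∀ x y : H, (fun g => ⟪x, (π g : H →L[ℂ] H) y⟫_ℂ) ∈ BG G,
      ¬ IsMeagre {x : H | (fun g => ⟪x, (π g : H →L[ℂ] H) x⟫_ℂ) ∈ BG G},
      ∃ c : ℝ, ∀ f : MonoidAlgebra ℂ G, ‖opOf π f‖ ≤ c * fullNorm f] := by
  tfae_have 1 → 2 := fun h x y => coef_mem π h x y
  tfae_have 2 → 3 := by
    intro h
    have : {x : H | (fun g => ⟪x, (π g : H →L[ℂ] H) x⟫_ℂ) ∈ BG G} = Set.univ :=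
      Set.eq_univ_of_forall fun x => h x x
    rw [this]
    exact not_isMeagre_of_isOpen isOpen_univ ⟨0, trivial⟩
  tfae_have 3 → 4 := by
    intro h
    obtain ⟨C, hC, hC'⟩ := diag_bound π h
    exact ⟨4 * C, fun f => op_bound π C hC hC' f⟩
  tfae_have 4 → 1 := by
    rintro ⟨c, hc⟩
    obtain ⟨ξ, -, -, h⟩ := sim_group hK π (max c 1) (le_max_right _ _) (fun f =>
      (hc f).trans (mul_le_mul_of_nonneg_right (le_max_left _ _) (fullNorm_nonneg f)))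
    exact ⟨ξ, h⟩
  tfae_finish

theorem UBG_subset_MdG (G : Type) [Group G] (d : ℕ) : UBG G ⊆ MdG G d := by
  rintro φ ⟨K, i1, i2, i3, π, a, b, ⟨C, hC⟩, hφ⟩
  refine ⟨K, i1, i2, i3, fun _ g => (π g : K →L[ℂ] K), a, b, ⟨C, fun _ g => hC g⟩, ?_⟩
  intro t
  rw [hφ]
  have h1 : ((π (List.ofFn t).prod : (K →L[ℂ] K)ˣ) : K →L[ℂ] K) =
      ((Units.coeHom (K →L[ℂ] K)).comp π) (List.ofFn t).prod := rfl
  rw [h1, map_list_prod, List.map_ofFn]
  rfl

/-- A group is unitarizable iff `UB(G) = B(G)`. -/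
theorem group_iff (hK : KadSim) (G : Type) [Group G] : UnitarizableGroup G ↔ UBG G = BG G := by
  constructor
  · intro h
    apply Set.Subset.antisymm
    · rintro φ ⟨K, i1, i2, i3, π, a, b, hb, hφ⟩
      have h1 := coef_mem π (h K π hb) a b
      have h2 : φ = fun g => ⟪a, (π g : K →L[ℂ] K) b⟫_ℂ := funext hφ
      rw [h2]; exact h1
    · rintro φ ⟨K, i1, i2, i3, σ, a, b, hφ⟩
      refine ⟨K, i1, i2, i3, (Unitary.toUnits (R := K →L[ℂ] K)).comp σ, a, b, ⟨1, ?_⟩, ?_⟩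
      · intro g
        exact norm_unitary_le (σ g)
      · intro g
        exact hφ g
  · intro h H _ _ _ π hb
    refine ((tfae_unitarizable hK π).out 1 0).1 ?_
    intro x y
    rw [← h]
    exact ⟨H, inferInstance, inferInstance, inferInstance, π, x, y, hb, fun g => rfl⟩

/-- If `M_d(G) ⊆ B(G)` for some `d`, the group is unitarizable. -/
theorem group_of_Md (hK : KadSim) (G : Type) [Group G] (d : ℕ) (h : MdG G d ⊆ BG G) :
    UnitarizableGroup G := by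
  intro H _ _ _ π hb
  refine ((tfae_unitarizable hK π).out 1 0).1 ?_
  intro x y
  exact h (UBG_subset_MdG G d ⟨H, inferInstance, inferInstance, inferInstance, π, x, y, hb,
    fun g => rfl⟩)

end Pool.Agent.H231R3.UB
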