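import Mathlib
import Pool.Agent.H231R3.UB.Main
import Pool.Agent.H231R3.UB.Defs2

/-!
# The definitions of the statement and those of the proof
-/

set_option autoImplicit false

noncomputable section

namespace Pool.Agent.H231R3.UB2

open scoped InnerProductSpace

variable {G : Type} [Group G]

/-- A representation, as a homomorphism into the units. -/
def toU {H : Type} [NormedAddCommGroup H] [InnerProductSpace ℂ H] (π : Rep G H) :
    G →* (H →L[ℂ] H)ˣ :=
  π.toHomUnits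

theorem toU_apply {H : Type} [NormedAddCommGroup H] [InnerProductSpace ℂ H] (π : Rep G H)
    (g : G) : (toU π g : H →L[ℂ] H) = π g := rfl

theorem opOf_toU {H : Type} [NormedAddCommGroup H] [InnerProductSpace ℂ H] (π : Rep G H)
    (f : MonoidAlgebra ℂ G) : UB.opOf (toU π) f = opOf π f := by
  unfold UB.opOf opOf
  rw [MonoidAlgebra.lift_apply]
  rfl

theorem opOfU_eq {K : Type} [NormedAddCommGroup K] [InnerProductSpace ℂ K] [CompleteSpace K]
    (σ : G →* unitary (K →L[ℂ] K)) (f : MonoidAlgebra ℂ G) :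
    UB.opOfU σ f = opOf ((unitary (K →L[ℂ] K)).subtype.comp σ) f := by
  unfold UB.opOfU opOf
  rw [MonoidAlgebra.lift_apply]

/-- A unitary representation, as a homomorphism into the unitary group. -/
def toUn {K : Type} [NormedAddCommGroup K] [InnerProductSpace ℂ K] [CompleteSpace K]
    (σ : Rep G K) (h : IsUnitary σ) : G →* unitary (K →L[ℂ] K) :=
  { toFun := fun g => ⟨σ g, h g⟩
    map_one' := Subtype.ext (map_one σ)
    map_mul' := fun g g' => Subtype.ext (map_mul σ g g') }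

theorem sub_toUn {K : Type} [NormedAddCommGroup K] [InnerProductSpace ℂ K] [CompleteSpace K]
    (σ : Rep G K) (h : IsUnitary σ) :
    (unitary (K →L[ℂ] K)).subtype.comp (toUn σ h) = σ := by
  ext g : 1
  rfl

theorem BG_eq : BG G = UB.BG G := by
  ext φ
  constructor
  · rintro ⟨K, i1, i2, i3, σ, a, b, h, hφ⟩
    exact ⟨K, i1, i2, i3, toUn σ h, a, b, fun g => by rw [hφ]; rfl⟩
  · rintro ⟨K, i1, i2, i3, σ, a, b, hφ⟩
    exact ⟨K, i1, i2, i3, (unitary (K →L[ℂ] K)).subtype.comp σ, a, b, fun g => (σ g).2,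
      funext hφ⟩

theorem UBG_eq : UBG G = UB.UBG G := by
  ext φ
  constructor
  · rintro ⟨K, i1, i2, i3, σ, a, b, h, hφ⟩
    exact ⟨K, i1, i2, i3, toU σ, a, b, h, fun g => by rw [hφ]; rfl⟩
  · rintro ⟨K, i1, i2, i3, σ, a, b, h, hφ⟩
    exact ⟨K, i1, i2, i3, (Units.coeHom (K →L[ℂ] K)).comp σ, a, b, h, funext hφ⟩

theorem fullNorm_eq (f : MonoidAlgebra ℂ G) : fullNorm f = UB.fullNorm f := by
  unfold fullNorm UB.fullNorm
  congr 1
  ext r
  constructor
  · rintro ⟨K, i1, i2, i3, σ, h, hr⟩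
    refine ⟨K, i1, i2, i3, toUn σ h, ?_⟩
    rw [opOfU_eq, sub_toUn]
    exact hr
  · rintro ⟨K, i1, i2, i3, σ, hr⟩
    refine ⟨K, i1, i2, i3, (unitary (K →L[ℂ] K)).subtype.comp σ, fun g => (σ g).2, ?_⟩
    rw [← opOfU_eq]
    exact hr

theorem unitarizableWith_iff {H : Type} [NormedAddCommGroup H] [InnerProductSpace ℂ H]
    [CompleteSpace H] (π : Rep G H) (b : ℝ) :
    UnitarizableWith π b ↔ UB.UnitarizableWith (toU π) b := by
  constructor
  · rintro ⟨S, T, h1, h2, h3, h4, h5⟩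
    exact ⟨⟨S, T, h1, h2⟩, h3, h4, h5⟩
  · rintro ⟨S, h3, h4, h5⟩
    exact ⟨S, (S⁻¹ : (H →L[ℂ] H)ˣ), S.mul_inv, S.inv_mul, h3, h4, h5⟩

theorem unitarizable_iff {H : Type} [NormedAddCommGroup H] [InnerProductSpace ℂ H]
    [CompleteSpace H] (π : Rep G H) :
    Unitarizable π ↔ UB.Unitarizable (toU π) := by
  constructor
  · rintro ⟨b, hb⟩
    obtain ⟨S, -, -, h⟩ := (unitarizableWith_iff π b).1 hb
    exact ⟨S, h⟩
  · rintro ⟨S, h⟩
    refine ⟨max (‖(S : H →L[ℂ] H)‖ ^ 2) (‖((S⁻¹ : (H →L[ℂ] H)ˣ) : H →L[ℂ] H)‖ ^ 2), ?_⟩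
    rw [unitarizableWith_iff]
    exact ⟨S, le_max_left _ _, le_max_right _ _, h⟩

theorem group_iff' : UnitarizableGroup G ↔ UB.UnitarizableGroup G := by
  constructor
  · intro h H _ _ _ π hb
    have h1 := (unitarizable_iff ((Units.coeHom (H →L[ℂ] H)).comp π)).1
      (h H ((Units.coeHom (H →L[ℂ] H)).comp π) hb)
    have h2 : toU ((Units.coeHom (H →L[ℂ] H)).comp π) = π := by
      ext g : 2
      rfl
    rw [h2] at h1
    exact h1
  · intro h H _ _ _ π hb
    exact (unitarizable_iff π).2 (h H (toU π) hb)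

theorem cStarBdd_iff {H : Type} [NormedAddCommGroup H] [InnerProductSpace ℂ H]
    (π : Rep G H) (c : ℝ) : CStarBdd π c ↔ UB.CStarBdd (toU π) c := by
  unfold CStarBdd UB.CStarBdd
  simp only [opOf_toU, fullNorm_eq]

theorem allCoef_iff {H : Type} [NormedAddCommGroup H] [InnerProductSpace ℂ H]
    (π : Rep G H) : AllCoefInB π ↔ UB.AllCoefInB (toU π) := by
  unfold AllCoefInB UB.AllCoefInB
  rw [BG_eq]
  rfl

theorem nonmeagre_iff {H : Type} [NormedAddCommGroup H] [InnerProductSpace ℂ H]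
    (π : Rep G H) : NonmeagreDiagInB π ↔ UB.NonmeagreDiagInB (toU π) := by
  unfold NonmeagreDiagInB UB.NonmeagreDiagInB
  rw [BG_eq]
  rfl

theorem MdG_eq (d : ℕ) : MdG G d = UB.MdG G d := rfl

/-- The final theorem. -/
theorem final (hK : UB.KadSim) (G : Type) [Group G] :
    (UnitarizableGroup G ↔ UBG G = BG G) ∧
    (∀ d : ℕ, MdG G d ⊆ BG G → UnitarizableGroup G) ∧
    ∀ (H : Type) [NormedAddCommGroup H] [InnerProductSpace ℂ H] [CompleteSpace H] (π : Rep G H),
      List.TFAE [Unitarizable π, AllCoefInB π, NonmeagreDiagInB π, ∃ c, CStarBdd π c] ∧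
      ∀ c : ℝ, 1 ≤ c → CStarBdd π c → UnitarizableWith π (864 * (2 * c) ^ 29) := by
  refine ⟨?_, ?_, ?_⟩
  · rw [group_iff', UBG_eq, BG_eq]
    exact UB.group_iff hK G
  · intro d h
    rw [MdG_eq, BG_eq] at h
    rw [group_iff']
    exact UB.group_of_Md hK G d h
  · intro H _ _ _ π
    refine ⟨?_, ?_⟩
    · have h := UB.tfae_unitarizable hK (toU π)
      rw [unitarizable_iff, allCoef_iff, nonmeagre_iff]
      simp only [cStarBdd_iff]
      exact h
    · intro c hc h
      rw [unitarizableWith_iff]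
      exact UB.sim_group hK (toU π) c hc ((cStarBdd_iff π c).1 h)

end Pool.Agent.H231R3.UB2
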